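import Pool.Agent.Q131.PO4.Main
import Pool.Agent.Q238.PO.PO1
import Pool.Agent.Q238.PO.PO7
import Pool.Agent.Q261.PO4.SelRed

set_option autoImplicit false

namespace Pool.Agent.Results.MP_4dfdc8_co.ThreePaths

/-- Every finite simple graph `G` in which all degrees are even and the maximum degree is four has
a path odd-cover with three paths: there are three paths in the complete graph on the vertex set of
`G` such that a pair of vertices is an edge of `G` if and only if it is an edge of an odd number of
the paths. -/
theorem result (V : Type) [Fintype V] [DecidableEq V] (G : SimpleGraph V) [DecidableRel G.Adj]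
    (heven : ∀ v, Even (G.degree v)) (hΔ : G.maxDegree = 4) :
    ∃ (u w : Fin 3 → V) (P : ∀ i, (⊤ : SimpleGraph V).Walk (u i) (w i)), (∀ i, (P i).IsPath) ∧
      ∀ e : Sym2 V, e ∈ G.edgeSet ↔
        Odd (Finset.univ.filter (fun i => e ∈ (P i).edges)).card :=
  Pool.Agent.Q131.PO4.three_paths Pool.Agent.Q238.PO.decomp Pool.Agent.Q261.PO4.selRed
    (Pool.Agent.Q238.PO.selBlue Pool.Agent.Q131.PO4.leaf3) G heven hΔ

end Pool.Agent.Results.MP_4dfdc8_co.ThreePaths
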